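import Mathlib

/-! Counting ordered adjacent pairs, and the extremal numbers of the 4-cycle. -/

set_option linter.unusedSectionVars false

namespace Pool.Agent.H.MP_9ec287_co.NearBip

open Finset Classical

variable {V : Type*} [Fintype V] [DecidableEq V]

/-- number of neighbours of `x` in `T` -/
noncomputable def dd (G : SimpleGraph V) (x : V) (T : Finset V) : ℕ :=
  (T.filter (fun y => G.Adj x y)).card

/-- number of ordered adjacent pairs in `S × T` -/
noncomputable def ee (G : SimpleGraph V) (S T : Finset V) : ℕ := ∑ x ∈ S, dd G x T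

/-- no 4-cycle inside `S` -/
def C4on (G : SimpleGraph V) (S : Finset V) : Prop :=
  ∀ a ∈ S, ∀ b ∈ S, ∀ c ∈ S, ∀ d ∈ S, a ≠ c → b ≠ d →
    G.Adj a b → G.Adj b c → G.Adj c d → G.Adj d a → False

omit [Fintype V] [DecidableEq V] in
lemma C4on.mono {G : SimpleGraph V} {S T : Finset V} (h : C4on G T) (hST : S ⊆ T) : C4on G S :=
  fun a ha b hb c hc d hd => h a (hST ha) b (hST hb) c (hST hc) d (hST hd)

lemma dd_eq_sum (G : SimpleGraph V) (x : V) (T : Finset V) :
    dd G x T = ∑ y ∈ T, if G.Adj x y then 1 else 0 := by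
  unfold dd
  rw [card_filter]

lemma dd_le_card (G : SimpleGraph V) (x : V) (T : Finset V) : dd G x T ≤ T.card :=
  card_filter_le _ _

lemma dd_mono (G : SimpleGraph V) (x : V) {S T : Finset V} (h : S ⊆ T) : dd G x S ≤ dd G x T :=
  card_le_card (filter_subset_filter _ h)

lemma dd_union (G : SimpleGraph V) (x : V) {S T : Finset V} (h : Disjoint S T) :
    dd G x (S ∪ T) = dd G x S + dd G x T := by
  rw [dd_eq_sum, dd_eq_sum, dd_eq_sum, sum_union h]

lemma dd_compl (G : SimpleGraph V) (x : V) (S : Finset V) :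
    dd G x S + dd G x Sᶜ = dd G x univ := by
  rw [← dd_union G x disjoint_compl_right, union_compl]

lemma ee_union_left (G : SimpleGraph V) {S T : Finset V} (U : Finset V) (h : Disjoint S T) :
    ee G (S ∪ T) U = ee G S U + ee G T U := by
  unfold ee; rw [sum_union h]

lemma ee_union_right (G : SimpleGraph V) {S T : Finset V} (U : Finset V) (h : Disjoint S T) :
    ee G U (S ∪ T) = ee G U S + ee G U T := by
  unfold ee
  rw [← sum_add_distrib]
  exact sum_congr rfl (fun x _ => dd_union G x h)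

lemma ee_comm (G : SimpleGraph V) (S T : Finset V) : ee G S T = ee G T S := by
  unfold ee
  simp_rw [dd_eq_sum]
  rw [sum_comm]
  simp_rw [G.adj_comm]

lemma ee_mono (G : SimpleGraph V) {S S' T T' : Finset V} (h : S ⊆ S') (h' : T ⊆ T') :
    ee G S T ≤ ee G S' T' := by
  unfold ee
  calc ∑ x ∈ S, dd G x T ≤ ∑ x ∈ S, dd G x T' := sum_le_sum (fun x _ => dd_mono G x h')
    _ ≤ ∑ x ∈ S', dd G x T' := sum_le_sum_of_subset h

lemma ee_le_mul (G : SimpleGraph V) (S T : Finset V) : ee G S T ≤ S.card * T.card := by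
  unfold ee
  calc ∑ x ∈ S, dd G x T ≤ ∑ x ∈ S, T.card := sum_le_sum (fun x _ => dd_le_card G x T)
    _ = S.card * T.card := by rw [sum_const, smul_eq_mul]

lemma ee_le_of (G : SimpleGraph V) (S T : Finset V) {c : ℕ} (h : ∀ x ∈ S, dd G x T ≤ c) :
    ee G S T ≤ S.card * c := by
  unfold ee
  calc ∑ x ∈ S, dd G x T ≤ ∑ x ∈ S, c := sum_le_sum h
    _ = S.card * c := by rw [sum_const, smul_eq_mul]

lemma ee_singleton (G : SimpleGraph V) (v : V) (T : Finset V) : ee G {v} T = dd G v T := by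
  simp [ee]

lemma dd_singleton_self (G : SimpleGraph V) (v : V) : dd G v {v} = 0 := by
  simp [dd]

lemma ee_insert (G : SimpleGraph V) {S : Finset V} {v : V} (hv : v ∉ S) :
    ee G (insert v S) (insert v S) = ee G S S + 2 * dd G v S := by
  have h1 : Disjoint ({v} : Finset V) S := by simpa using hv
  have h2 : insert v S = {v} ∪ S := rfl
  rw [h2, ee_union_left G _ h1, ee_union_right G _ h1, ee_union_right G _ h1, ee_singleton,
    ee_singleton, dd_singleton_self, ee_comm G S {v}, ee_singleton]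
  ring

lemma ee_erase (G : SimpleGraph V) {S : Finset V} {v : V} (hv : v ∈ S) :
    ee G (S.erase v) (S.erase v) + 2 * dd G v S = ee G S S := by
  have h1 : v ∉ S.erase v := notMem_erase v S
  have h2 := ee_insert G h1
  rw [insert_erase hv] at h2
  rw [h2]
  have h3 : dd G v S = dd G v (S.erase v) := by
    unfold dd
    congr 1
    ext y
    simp only [mem_filter, mem_erase]
    constructor
    · rintro ⟨h3, h4⟩
      exact ⟨⟨h4.ne', h3⟩, h4⟩
    · rintro ⟨⟨_, h3⟩, h4⟩
      exact ⟨h3, h4⟩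
  rw [h3]

/-- ordered pairs in a bipartition -/
lemma ee_split (G : SimpleGraph V) (A : Finset V) :
    ee G univ univ = ee G A A + 2 * ee G A Aᶜ + ee G Aᶜ Aᶜ := by
  have h1 : Disjoint A Aᶜ := disjoint_compl_right
  rw [← union_compl A, ee_union_left G _ h1, ee_union_right G _ h1, ee_union_right G _ h1,
    ee_comm G Aᶜ A]
  ring

/-- twice the extremal number of the 4-cycle -/
noncomputable def ex2 (k : ℕ) : ℕ :=
  (univ.filter (fun G : SimpleGraph (Fin k) => C4on G univ)).sup (fun G => ee G univ univ)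

lemma le_ex2 (G : SimpleGraph V) (S : Finset V) (h : C4on G S) : ee G S S ≤ ex2 S.card := by
  let e := S.equivFin
  let H : SimpleGraph (Fin S.card) := G.comap (fun i => ((e.symm i : S) : V))
  have hH : C4on H univ := by
    intro a _ b _ c _ d _ hac hbd h1 h2 h3 h4
    refine h _ (e.symm a).2 _ (e.symm b).2 _ (e.symm c).2 _ (e.symm d).2 ?_ ?_ h1 h2 h3 h4
    · intro h5; exact hac (e.symm.injective (Subtype.ext h5))
    · intro h5; exact hbd (e.symm.injective (Subtype.ext h5))
  have hee : ee H univ univ = ee G S S := by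
    unfold ee
    simp_rw [dd_eq_sum]
    rw [← Finset.sum_coe_sort S]
    rw [← e.symm.sum_comp (fun x : S => ∑ y ∈ S, if G.Adj x y then 1 else 0)]
    apply sum_congr rfl
    intro i _
    rw [← Finset.sum_coe_sort S]
    rw [← e.symm.sum_comp (fun y : S => if G.Adj (e.symm i : S) y then 1 else 0)]
    rfl
  rw [← hee]
  exact le_sup (f := fun G : SimpleGraph (Fin S.card) => ee G univ univ)
    (mem_filter.mpr ⟨mem_univ _, hH⟩)

lemma exists_ex2 (k : ℕ) : ∃ G : SimpleGraph (Fin k), C4on G univ ∧ ee G univ univ = ex2 k := by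
  have hne : (univ.filter (fun G : SimpleGraph (Fin k) => C4on G univ)).Nonempty := by
    refine ⟨⊥, mem_filter.mpr ⟨mem_univ _, ?_⟩⟩
    intro a _ b _ c _ d _ _ _ h
    simp at h
  obtain ⟨G, hG, h⟩ := exists_mem_eq_sup _ hne (fun G : SimpleGraph (Fin k) => ee G univ univ)
  exact ⟨G, (mem_filter.mp hG).2, h.symm⟩

lemma ex2_add (a b : ℕ) : ex2 a + ex2 b ≤ ex2 (a + b) := by
  obtain ⟨G, hG, hG2⟩ := exists_ex2 a
  obtain ⟨H, hH, hH2⟩ := exists_ex2 b
  have h1 : C4on (G ⊕g H) univ := by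
    rintro (x|x) _ (y|y) _ (z|z) _ (w|w) _ h1 h2 h3 h4 h5 h6 <;> simp_all
    · exact hG x (mem_univ _) y (mem_univ _) z (mem_univ _) w (mem_univ _) h1 h2 h3 h4 h5 h6
    · exact hH x (mem_univ _) y (mem_univ _) z (mem_univ _) w (mem_univ _) h1 h2 h3 h4 h5 h6
  have h2 := le_ex2 (G ⊕g H) univ h1
  have h3 : (univ : Finset (Fin a ⊕ Fin b)).card = a + b := by
    rw [card_univ, Fintype.card_sum, Fintype.card_fin, Fintype.card_fin]
  rw [h3] at h2
  refine le_trans (le_of_eq ?_) h2
  rw [← hG2, ← hH2]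
  unfold ee
  simp_rw [dd_eq_sum]
  rw [Fintype.sum_sum_type]
  simp only [Fintype.sum_sum_type]
  simp

lemma ex2_mono {a b : ℕ} (h : a ≤ b) : ex2 a ≤ ex2 b := by
  obtain ⟨c, rfl⟩ := Nat.exists_eq_add_of_le h
  exact (Nat.le_add_right _ _).trans (ex2_add a c)

lemma ex2_mul (q k : ℕ) : q * ex2 k ≤ ex2 (q * k) := by
  induction q with
  | zero => simp
  | succ q ih =>
    calc (q + 1) * ex2 k = q * ex2 k + ex2 k := by ring
      _ ≤ ex2 (q * k) + ex2 k := Nat.add_le_add_right ih _
      _ ≤ ex2 (q * k + k) := ex2_add _ _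
      _ = ex2 ((q+1) * k) := by congr 1; ring

/-- the point-line graph of the affine plane over `ZMod p` without vertical lines -/
def plane (p : ℕ) : SimpleGraph ((ZMod p × ZMod p) ⊕ (ZMod p × ZMod p)) where
  Adj := fun u v => match u, v with
    | Sum.inl P, Sum.inr l => P.2 = l.1 * P.1 + l.2
    | Sum.inr l, Sum.inl P => P.2 = l.1 * P.1 + l.2
    | _, _ => False
  symm := ⟨by
    rintro (u|u) (v|v) h <;> simp_all⟩
  loopless := ⟨by
    rintro (u|u) h <;> simp_all⟩

lemma plane_c4 (p : ℕ) [Fact p.Prime] : C4on (plane p) univ := by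
  have key : ∀ P Q l m : ZMod p × ZMod p, P ≠ Q → l ≠ m → P.2 = l.1 * P.1 + l.2 →
      Q.2 = l.1 * Q.1 + l.2 → P.2 = m.1 * P.1 + m.2 → Q.2 = m.1 * Q.1 + m.2 → False := by
    intro P Q l m h1 h2 h3 h4 h5 h6
    have h7 : (l.1 - m.1) * (P.1 - Q.1) = 0 := by linear_combination -h3 + h4 + h5 - h6
    rcases mul_eq_zero.mp h7 with h8 | h8
    · have h9 : l.1 = m.1 := sub_eq_zero.mp h8
      apply h2
      ext
      · rw [h9]
      · have : l.2 = m.2 := by
          rw [h9] at h3
          linear_combination -h3 + h5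
        rw [this]
    · have h9 : P.1 = Q.1 := sub_eq_zero.mp h8
      apply h1
      ext
      · rw [h9]
      · rw [h3, h4, h9]
  rintro (a|a) _ (b|b) _ (c|c) _ (d|d) _ h1 h2 h3 h4 h5 h6 <;>
    simp only [plane, ne_eq, Sum.inl.injEq, Sum.inr.injEq] at h1 h2 h3 h4 h5 h6
  · exact key a c b d h1 h2 h3 h4 h6 h5
  · exact key b d a c h2 h1 h3 h6 h4 h5

lemma plane_ee (p : ℕ) [NeZero p] : 2 * p^3 ≤ ee (plane p) univ univ := by
  unfold ee
  simp_rw [dd_eq_sum]
  rw [Fintype.sum_sum_type]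
  simp only [Fintype.sum_sum_type]
  have hL : ∀ x : ZMod p × ZMod p, (p : ℕ) ≤ ∑ y : ZMod p × ZMod p,
      (if (plane p).Adj (Sum.inl x) (Sum.inr y) then 1 else 0) := by
    intro x
    rw [← card_filter]
    calc p = (univ : Finset (ZMod p)).card := by rw [card_univ, ZMod.card]
      _ = (univ.image (fun m : ZMod p => (m, x.2 - m * x.1))).card := by
        rw [card_image_of_injective]
        intro m m' h
        simpa using congrArg Prod.fst h
      _ ≤ _ := by
        apply card_le_card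
        intro y hy
        obtain ⟨m, _, rfl⟩ := mem_image.mp hy
        simp only [mem_filter, mem_univ, true_and, plane]
        ring
  have hR : ∀ x : ZMod p × ZMod p, (p : ℕ) ≤ ∑ y : ZMod p × ZMod p,
      (if (plane p).Adj (Sum.inr x) (Sum.inl y) then 1 else 0) := by
    intro x
    rw [← card_filter]
    calc p = (univ : Finset (ZMod p)).card := by rw [card_univ, ZMod.card]
      _ = (univ.image (fun t : ZMod p => (t, x.1 * t + x.2))).card := by
        rw [card_image_of_injective]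
        intro m m' h
        simpa using congrArg Prod.fst h
      _ ≤ _ := by
        apply card_le_card
        intro y hy
        obtain ⟨m, _, rfl⟩ := mem_image.mp hy
        simp only [mem_filter, mem_univ, true_and, plane]
  have hcard : Fintype.card (ZMod p × ZMod p) = p^2 := by
    rw [Fintype.card_prod, ZMod.card]; ring
  have h1 : p^2 * p ≤ ∑ x : ZMod p × ZMod p, (∑ y : ZMod p × ZMod p,
      (if (plane p).Adj (Sum.inl x) (Sum.inl y) then 1 else 0) + ∑ y : ZMod p × ZMod p,
      (if (plane p).Adj (Sum.inl x) (Sum.inr y) then 1 else 0)) := by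
    calc p^2 * p = ∑ x : ZMod p × ZMod p, p := by rw [sum_const, card_univ, hcard, smul_eq_mul]
      _ ≤ _ := sum_le_sum (fun x _ => (hL x).trans (Nat.le_add_left _ _))
  have h2 : p^2 * p ≤ ∑ x : ZMod p × ZMod p, (∑ y : ZMod p × ZMod p,
      (if (plane p).Adj (Sum.inr x) (Sum.inl y) then 1 else 0) + ∑ y : ZMod p × ZMod p,
      (if (plane p).Adj (Sum.inr x) (Sum.inr y) then 1 else 0)) := by
    calc p^2 * p = ∑ x : ZMod p × ZMod p, p := by rw [sum_const, card_univ, hcard, smul_eq_mul]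
      _ ≤ _ := sum_le_sum (fun x _ => (hR x).trans (Nat.le_add_right _ _))
  calc 2 * p^3 = p^2 * p + p^2 * p := by ring
    _ ≤ _ := Nat.add_le_add h1 h2

lemma ex2_plane (p : ℕ) [Fact p.Prime] : 2 * p^3 ≤ ex2 (2 * p^2) := by
  have : NeZero p := ⟨(Fact.out : p.Prime).ne_zero⟩
  have h := le_ex2 (plane p) univ (plane_c4 p)
  have h3 : (univ : Finset ((ZMod p × ZMod p) ⊕ (ZMod p × ZMod p))).card = 2 * p^2 := by
    rw [card_univ, Fintype.card_sum, Fintype.card_prod, ZMod.card]; ring
  rw [h3] at h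
  exact (plane_ee p).trans h

/-- the extremal number is superlinear -/
theorem ex2_superlinear (K : ℕ) : ∃ x₀ : ℕ, ∀ x, x₀ ≤ x → K * x ≤ ex2 x := by
  obtain ⟨p, hp, hprime⟩ := Nat.exists_infinite_primes (K + 1)
  have : Fact p.Prime := ⟨hprime⟩
  refine ⟨p * (2 * p^2), fun x hx => ?_⟩
  set k := 2 * p^2 with hk
  have h1 : ex2 k * (x / k) ≤ ex2 x := by
    calc ex2 k * (x / k) = (x/k) * ex2 k := Nat.mul_comm _ _
      _ ≤ ex2 ((x/k) * k) := ex2_mul _ _
      _ ≤ ex2 x := ex2_mono (Nat.div_mul_le_self x k)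
  have h2 : p * k ≤ ex2 k := by
    calc p * k = 2 * p^3 := by rw [hk]; ring
      _ ≤ ex2 k := ex2_plane p
  have hk0 : 0 < k := by rw [hk]; have := hprime.pos; positivity
  have h3 : x < k * (x / k + 1) := Nat.lt_mul_div_succ x hk0
  have h4 : p * k * (x/k) ≤ ex2 x := (Nat.mul_le_mul_right _ h2).trans h1
  have h5 : p * x ≤ p * k * (x/k) + p * k := by nlinarith
  have h6 : (K + 1) * x ≤ p * x := Nat.mul_le_mul_right _ hp
  nlinarith

/-- twice the maximal number of edges of a graph in `Q(m)` -/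
noncomputable def Qb (m : ℕ) : ℕ :=
  (range (m+1)).sup (fun a => 2 * a * (m - a) + ex2 a + ex2 (m - a))

lemma le_Qb (a b : ℕ) : 2 * a * b + ex2 a + ex2 b ≤ Qb (a + b) := by
  have h := le_sup (f := fun x => 2 * x * (a + b - x) + ex2 x + ex2 (a + b - x))
    (mem_range.mpr (show a < a + b + 1 by omega))
  simp only [Nat.add_sub_cancel_left] at h
  exact h

lemma exists_Qb (m : ℕ) : ∃ a b, a + b = m ∧ Qb m = 2 * a * b + ex2 a + ex2 b := by
  obtain ⟨a, ha, h⟩ := exists_mem_eq_sup (range (m+1)) ⟨0, by simp⟩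
    (fun a => 2 * a * (m - a) + ex2 a + ex2 (m - a))
  rw [mem_range] at ha
  exact ⟨a, m - a, by omega, h⟩

lemma Qb_succ (m : ℕ) : Qb m + m ≤ Qb (m+1) := by
  obtain ⟨a, b, hab, h⟩ := exists_Qb m
  rw [h]
  rcases le_total a b with h1 | h1
  · have h2 := le_Qb (a+1) b
    have h3 : a + 1 + b = m + 1 := by omega
    rw [h3] at h2
    have h4 := ex2_mono (Nat.le_succ a)
    have h5 : 2 * (a+1) * b = 2 * a * b + 2 * b := by ring
    simp only [Nat.succ_eq_add_one] at h4
    omega
  · have h2 := le_Qb a (b+1)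
    have h3 : a + (b + 1) = m + 1 := by omega
    rw [h3] at h2
    have h4 := ex2_mono (Nat.le_succ b)
    have h5 : 2 * a * (b+1) = 2 * a * b + 2 * a := by ring
    simp only [Nat.succ_eq_add_one] at h4
    omega

lemma half_le_Qb (m : ℕ) : m^2 ≤ 2 * Qb m + 1 := by
  have h1 := le_Qb (m/2) (m - m/2)
  have h2 : m/2 + (m - m/2) = m := by omega
  rw [h2] at h1
  rcases Nat.even_or_odd m with ⟨k, hk⟩ | ⟨k, hk⟩
  · have h3 : m/2 = k := by omega
    have h4 : m - k = k := by omega
    rw [h3, h4] at h1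
    rw [hk]
    rw [hk] at h1
    nlinarith
  · have h3 : m/2 = k := by omega
    have h4 : m - k = k + 1 := by omega
    rw [h3, h4] at h1
    rw [hk]
    rw [hk] at h1
    nlinarith

end Pool.Agent.H.MP_9ec287_co.NearBip
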