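import Mathlib

/-! The class `Q(n)`, the number `qbar n` and `K(2,2,t)`. -/

namespace Pool.Agent.H.MP_9ec287_co.NearBip

open SimpleGraph

/-- The class `Q(n)`: all edges between the colour class `A` and its complement are present, and neither
`A` nor its complement spans a quadrilateral (a cycle of length four, not necessarily induced). -/
def Q (n : ℕ) : Set (SimpleGraph (Fin n)) :=
  {G | ∃ A : Set (Fin n), (∀ x ∈ A, ∀ y ∉ A, G.Adj x y) ∧
    (cycleGraph 4).Free (G.induce A) ∧ (cycleGraph 4).Free (G.induce Aᶜ)}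

/-- The maximum number of edges of a graph in `Q(n)`. -/
noncomputable def qbar (n : ℕ) : ℕ := sSup ((fun G : SimpleGraph (Fin n) => G.edgeSet.ncard) '' Q n)

/-- The complete tripartite graph `K(2,2,t)`. -/
abbrev K22 (t : ℕ) : SimpleGraph (Σ i : Fin 3, Fin (![2, 2, t] i)) :=
  completeMultipartiteGraph (fun i : Fin 3 => Fin (![2, 2, t] i))

end Pool.Agent.H.MP_9ec287_co.NearBip
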