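import Mathlib
import Pool.Agent.H.MP_9ec287_co.NearBip.Basic

/-! One side of a near-complete bipartite graph of large minimum degree in which no 4-cycle has many
common neighbours. -/

set_option linter.unusedSectionVars false

namespace Pool.Agent.H.MP_9ec287_co.NearBip

open Finset Classical

variable {V : Type*} [Fintype V] [DecidableEq V]

/-- the common neighbours of four vertices -/
noncomputable def cn (G : SimpleGraph V) (a b c d : V) : Finset V :=
  univ.filter (fun z => G.Adj z a ∧ G.Adj z b ∧ G.Adj z c ∧ G.Adj z d)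

/-- every 4-cycle has fewer than `t` common neighbours -/
def NB (G : SimpleGraph V) (t : ℝ) : Prop :=
  ∀ a b c d, a ≠ c → b ≠ d → G.Adj a b → G.Adj b c → G.Adj c d → G.Adj d a →
    ((cn G a b c d).card : ℝ) < t

/-- the non-neighbours in `B` -/
noncomputable def ms (G : SimpleGraph V) (B : Finset V) (x : V) : Finset V :=
  B.filter (fun z => ¬ G.Adj x z)

lemma ms_card (G : SimpleGraph V) (B : Finset V) (x : V) : dd G x B + (ms G B x).card = B.card := by
  unfold dd ms
  exact card_filter_add_card_filter_not _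

lemma cs_bound (G : SimpleGraph V) (I B : Finset V) :
    (∑ v ∈ I, dd G v B)^2 ≤
      B.card * ∑ v ∈ I, ∑ w ∈ I, (B.filter (fun z => G.Adj v z ∧ G.Adj w z)).card := by
  have h1 : ∑ v ∈ I, dd G v B = ∑ z ∈ B, ∑ v ∈ I, if G.Adj v z then 1 else 0 := by
    simp_rw [dd_eq_sum]
    rw [sum_comm]
  have h2 : ∑ v ∈ I, ∑ w ∈ I, (B.filter (fun z => G.Adj v z ∧ G.Adj w z)).card =
      ∑ z ∈ B, (∑ v ∈ I, if G.Adj v z then 1 else 0)^2 := by
    simp_rw [card_filter]
    have h3 : ∀ v ∈ I, ∑ w ∈ I, ∑ z ∈ B, (if G.Adj v z ∧ G.Adj w z then 1 else 0) =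
        ∑ z ∈ B, ∑ w ∈ I, (if G.Adj v z then 1 else 0) * (if G.Adj w z then 1 else 0) := by
      intro v _
      rw [sum_comm]
      apply sum_congr rfl; intro z _
      apply sum_congr rfl; intro w _
      by_cases h4 : G.Adj v z <;> by_cases h5 : G.Adj w z <;> simp [h4, h5]
    rw [sum_congr rfl h3, sum_comm]
    apply sum_congr rfl; intro z _
    rw [sq, sum_mul_sum]
  rw [h1, h2]
  exact sq_sum_le_card_mul_sum_sq

section side

variable {G : SimpleGraph V} {A B : Finset V} {m : ℝ}

/-- hypotheses for one side -/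
structure SideHyp (G : SimpleGraph V) (A B : Finset V) (m : ℝ) : Prop where
  hm : (Fintype.card V : ℝ) = m
  hAB : B = Aᶜ
  hm1 : 1280000 ≤ m
  hdeg : ∀ v, (1/2 - 1/400) * m ≤ dd G v univ
  hcut : ∀ v ∈ A, dd G v A ≤ dd G v B
  hA : (A.card : ℝ) ≤ (1/2 + 1/2000) * m
  hB : (B.card : ℝ) ≤ (1/2 + 1/2000) * m
  hin : (ee G A A : ℝ) ≤ m^2 / 10^7
  hNB : NB G (m/15)

/-- the exceptional vertices -/
noncomputable def Ex (G : SimpleGraph V) (A : Finset V) (m : ℝ) : Finset V :=
  A.filter (fun v => m/400 ≤ dd G v A)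

lemma SideHyp.cardB (h : SideHyp G A B m) : (1/2 - 1/2000) * m ≤ B.card := by
  have h1 : A.card + B.card = Fintype.card V := by
    rw [h.hAB]; exact card_add_card_compl A
  have h2 : (A.card : ℝ) + B.card = m := by rw [← h.hm]; exact_mod_cast h1
  have := h.hA
  linarith

lemma SideHyp.degs (h : SideHyp G A B m) (v : V) :
    (1/2 - 1/400) * m ≤ (dd G v A : ℝ) + dd G v B := by
  have h1 := h.hdeg v
  have h2 := dd_compl G v A
  rw [← h.hAB] at h2
  have h3 : (dd G v A : ℝ) + dd G v B = dd G v univ := by exact_mod_cast h2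
  linarith

/-- non-exceptional vertices see almost all of the other side -/
lemma SideHyp.miss (h : SideHyp G A B m) {x : V} (hx : x ∈ A \ Ex G A m) :
    ((ms G B x).card : ℝ) ≤ 11/2000 * m := by
  rw [mem_sdiff, Ex, mem_filter, not_and] at hx
  have h1 := hx.2 hx.1
  push Not at h1
  have h2 := h.degs x
  have h3 := ms_card G B x
  have h4 : (dd G x B : ℝ) + (ms G B x).card = B.card := by exact_mod_cast h3
  have h5 := h.hB
  linarith

lemma SideHyp.exdeg (h : SideHyp G A B m) {v : V} (hv : v ∈ Ex G A m) :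
    (1/4 - 1/800) * m ≤ dd G v B := by
  rw [Ex, mem_filter] at hv
  have h1 := h.degs v
  have h2 : (dd G v A : ℝ) ≤ dd G v B := by exact_mod_cast h.hcut v hv.1
  linarith

lemma SideHyp.claim1 (h : SideHyp G A B m) : C4on G (A \ Ex G A m) := by
  intro a ha b hb c hc d hd hac hbd h1 h2 h3 h4
  have hcn := h.hNB a b c d hac hbd h1 h2 h3 h4
  have hsub : B ⊆ cn G a b c d ∪ (ms G B a ∪ ms G B b ∪ (ms G B c ∪ ms G B d)) := by
    intro z hz
    simp only [mem_union, cn, ms, mem_filter, mem_univ, true_and]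
    have e1 := G.adj_comm z a
    have e2 := G.adj_comm z b
    have e3 := G.adj_comm z c
    have e4 := G.adj_comm z d
    tauto
  have h5 := (card_le_card hsub).trans (card_union_le _ _)
  have h6 := card_union_le (ms G B a ∪ ms G B b) (ms G B c ∪ ms G B d)
  have h7 := card_union_le (ms G B a) (ms G B b)
  have h8 := card_union_le (ms G B c) (ms G B d)
  have h9 : B.card ≤ (cn G a b c d).card + ((ms G B a).card + (ms G B b).card +
    ((ms G B c).card + (ms G B d).card)) := by omega
  have h10 : (B.card : ℝ) ≤ (cn G a b c d).card + ((ms G B a).card + (ms G B b).card +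
    ((ms G B c).card + (ms G B d).card)) := by exact_mod_cast h9
  have := h.miss ha
  have := h.miss hb
  have := h.miss hc
  have := h.miss hd
  have := h.cardB
  have := h.hm1
  linarith

lemma SideHyp.claim2 (h : SideHyp G A B m) {v x : V} (hv : v ∈ Ex G A m)
    (hx : x ∈ A \ Ex G A m) : dd G x ((A \ Ex G A m).filter (fun y => G.Adj v y)) ≤ 1 := by
  by_contra hcon
  push Not at hcon
  unfold dd at hcon
  rw [one_lt_card] at hcon
  obtain ⟨b, hb, d, hd, hbd⟩ := hcon
  simp only [mem_filter] at hb hd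
  have hvx : v ≠ x := by
    rintro rfl
    exact (mem_sdiff.mp hx).2 hv
  have hcn := h.hNB v b x d hvx hbd hb.1.2 hb.2.symm hd.2 hd.1.2.symm
  have hsub : B.filter (fun z => G.Adj v z) ⊆ cn G v b x d ∪ (ms G B b ∪ (ms G B x ∪ ms G B d)) := by
    intro z hz
    simp only [mem_union, cn, ms, mem_filter, mem_univ, true_and] at hz ⊢
    have e1 := G.adj_comm z v
    have e2 := G.adj_comm z b
    have e3 := G.adj_comm z x
    have e4 := G.adj_comm z d
    tauto
  have h5 := (card_le_card hsub).trans (card_union_le _ _)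
  have h6 := card_union_le (ms G B b) (ms G B x ∪ ms G B d)
  have h8 := card_union_le (ms G B x) (ms G B d)
  have h9 : dd G v B ≤ (cn G v b x d).card + ((ms G B b).card +
    ((ms G B x).card + (ms G B d).card)) := by unfold dd; omega
  have h10 : (dd G v B : ℝ) ≤ (cn G v b x d).card + ((ms G B b).card +
    ((ms G B x).card + (ms G B d).card)) := by exact_mod_cast h9
  have := h.miss hb.1.1
  have := h.miss hx
  have := h.miss hd.1.1
  have := h.exdeg hv
  have := h.hm1
  linarith

/-- few exceptional vertices see the same two vertices of `A` -/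
lemma SideHyp.claim3 (h : SideHyp G A B m) {x y : V} (hx : x ∈ A \ Ex G A m)
    (hy : y ∈ A \ Ex G A m) (hxy : x ≠ y) :
    ((Ex G A m).filter (fun v => G.Adj v x ∧ G.Adj v y)).card ≤ 10 := by
  set I := (Ex G A m).filter (fun v => G.Adj v x ∧ G.Adj v y) with hI
  have hm0 : 0 < m := by have := h.hm1; linarith
  have h1 := cs_bound G I B
  have h2 : ∀ v ∈ I, ∀ w ∈ I, v ≠ w →
      ((B.filter (fun z => G.Adj v z ∧ G.Adj w z)).card : ℝ) ≤ (1/15 + 11/1000) * m := by
    intro v hv w hw hvw
    rw [hI, mem_filter] at hv hw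
    have hcn := h.hNB v x w y hvw hxy hv.2.1 hw.2.1.symm hw.2.2 hv.2.2.symm
    have hsub : B.filter (fun z => G.Adj v z ∧ G.Adj w z) ⊆ cn G v x w y ∪ (ms G B x ∪ ms G B y) := by
      intro z hz
      simp only [mem_union, cn, ms, mem_filter, mem_univ, true_and] at hz ⊢
      have e1 := G.adj_comm z v
      have e2 := G.adj_comm z x
      have e3 := G.adj_comm z w
      have e4 := G.adj_comm z y
      tauto
    have h5 := (card_le_card hsub).trans (card_union_le _ _)
    have h6 := card_union_le (ms G B x) (ms G B y)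
    have h9 : (B.filter (fun z => G.Adj v z ∧ G.Adj w z)).card ≤ (cn G v x w y).card +
      ((ms G B x).card + (ms G B y).card) := by omega
    have h10 : ((B.filter (fun z => G.Adj v z ∧ G.Adj w z)).card : ℝ) ≤ (cn G v x w y).card +
      ((ms G B x).card + (ms G B y).card) := by exact_mod_cast h9
    have := h.miss hx
    have := h.miss hy
    linarith
  have h3 : ∀ v ∈ I, (∑ w ∈ I, ((B.filter (fun z => G.Adj v z ∧ G.Adj w z)).card : ℝ)) ≤
      B.card + I.card * ((1/15 + 11/1000) * m) := by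
    intro v hv
    rw [← add_sum_erase _ _ hv]
    apply add_le_add
    · exact_mod_cast card_filter_le _ _
    · calc ∑ w ∈ I.erase v, ((B.filter (fun z => G.Adj v z ∧ G.Adj w z)).card : ℝ)
          ≤ ∑ w ∈ I.erase v, (1/15 + 11/1000) * m :=
            sum_le_sum (fun w hw => h2 v hv w (mem_of_mem_erase hw) (ne_of_mem_erase hw).symm)
        _ = (I.erase v).card * ((1/15 + 11/1000) * m) := by rw [sum_const, nsmul_eq_mul]
        _ ≤ I.card * ((1/15 + 11/1000) * m) := by
            apply mul_le_mul_of_nonneg_right _ (by positivity)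
            exact_mod_cast card_le_card (erase_subset _ _)
  have h4 : ((∑ v ∈ I, (dd G v B : ℝ)))^2 ≤ B.card * (I.card * (B.card + I.card * ((1/15 + 11/1000) * m))) := by
    have h1' : ((∑ v ∈ I, (dd G v B : ℝ)))^2 ≤
      B.card * ∑ v ∈ I, ∑ w ∈ I, ((B.filter (fun z => G.Adj v z ∧ G.Adj w z)).card : ℝ) := by
      exact_mod_cast h1
    refine h1'.trans (mul_le_mul_of_nonneg_left ?_ (Nat.cast_nonneg _))
    calc ∑ v ∈ I, ∑ w ∈ I, ((B.filter (fun z => G.Adj v z ∧ G.Adj w z)).card : ℝ)
        ≤ ∑ v ∈ I, (B.card + I.card * ((1/15 + 11/1000) * m)) := sum_le_sum h3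
      _ = I.card * (B.card + I.card * ((1/15 + 11/1000) * m)) := by rw [sum_const, nsmul_eq_mul]
  have h5 : (I.card : ℝ) * ((1/4 - 1/800) * m) ≤ ∑ v ∈ I, (dd G v B : ℝ) := by
    calc (I.card : ℝ) * ((1/4 - 1/800) * m) = ∑ v ∈ I, ((1/4 - 1/800) * m) := by
          rw [sum_const, nsmul_eq_mul]
      _ ≤ _ := sum_le_sum (fun v hv => h.exdeg (mem_filter.mp hv).1)
  by_contra hcon
  push Not at hcon
  have hi : (11 : ℝ) ≤ I.card := by exact_mod_cast hcon
  set i : ℝ := (I.card : ℝ) with hidef
  have h6 : (i * ((1/4 - 1/800) * m))^2 ≤ (∑ v ∈ I, (dd G v B : ℝ))^2 :=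
    pow_le_pow_left₀ (by positivity) h5 2
  have hB := h.hB
  have hB0 : (0:ℝ) ≤ B.card := Nat.cast_nonneg _
  have h7 : (B.card : ℝ) * (i * (B.card + i * ((1/15 + 11/1000) * m))) ≤
      ((1/2 + 1/2000) * m) * (i * (((1/2 + 1/2000) * m) + i * ((1/15 + 11/1000) * m))) := by
    gcongr
  have h8 : (i * ((1/4 - 1/800) * m))^2 ≤
      ((1/2 + 1/2000) * m) * (i * (((1/2 + 1/2000) * m) + i * ((1/15 + 11/1000) * m))) :=
    h6.trans (h4.trans h7)
  have h9 : 0 < i * m^2 := by positivity
  have h10 : (i * m^2) * (i * ((1/4 - 1/800)^2)) ≤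
      (i * m^2) * ((1/2 + 1/2000) * ((1/2 + 1/2000) + i * (1/15 + 11/1000))) := by
    calc (i * m^2) * (i * ((1/4 - 1/800)^2)) = (i * ((1/4 - 1/800) * m))^2 := by ring
      _ ≤ _ := h8
      _ = (i * m^2) * ((1/2 + 1/2000) * ((1/2 + 1/2000) + i * (1/15 + 11/1000))) := by ring
  have h11 := le_of_mul_le_mul_left h10 h9
  linarith

lemma SideHyp.few (h : SideHyp G A B m) : ((Ex G A m).card : ℝ) ≤ m / 25000 := by
  have hm0 : 0 < m := by have := h.hm1; linarith
  have h1 : ((Ex G A m).card : ℝ) * (m/400) ≤ ee G A A := by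
    calc ((Ex G A m).card : ℝ) * (m/400) = ∑ v ∈ Ex G A m, m/400 := by rw [sum_const, nsmul_eq_mul]
      _ ≤ ∑ v ∈ Ex G A m, (dd G v A : ℝ) := sum_le_sum (fun v hv => (mem_filter.mp hv).2)
      _ ≤ ∑ v ∈ A, (dd G v A : ℝ) :=
        sum_le_sum_of_subset_of_nonneg (filter_subset _ _) (fun _ _ _ => Nat.cast_nonneg _)
      _ = ee G A A := by unfold ee; push_cast; rfl
  have h2 := h.hin
  have h3 : (m/400) * (Ex G A m).card ≤ (m/400) * (m/25000) := by
    calc (m/400) * ((Ex G A m).card : ℝ) = ((Ex G A m).card : ℝ) * (m/400) := mul_comm _ _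
      _ ≤ ee G A A := h1
      _ ≤ m^2/10^7 := h2
      _ = (m/400) * (m/25000) := by ring
  exact le_of_mul_le_mul_left h3 (by positivity)

lemma SideHyp.Xcard (h : SideHyp G A B m) {v : V} (hv : v ∈ Ex G A m) :
    m/800 ≤ ((A \ Ex G A m).filter (fun y => G.Adj v y)).card := by
  have h1 : dd G v A ≤ ((A \ Ex G A m).filter (fun y => G.Adj v y)).card + (Ex G A m).card := by
    unfold dd
    refine le_trans (card_le_card ?_) (card_union_le _ _)
    intro y hy
    simp only [mem_union, mem_filter, mem_sdiff] at hy ⊢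
    tauto
  have h2 : (dd G v A : ℝ) ≤ ((A \ Ex G A m).filter (fun y => G.Adj v y)).card +
    (Ex G A m).card := by exact_mod_cast h1
  have h3 := (mem_filter.mp hv).2
  have h4 := h.few
  have h5 := h.hm1
  linarith

lemma SideHyp.claim4 (h : SideHyp G A B m) : (Ex G A m).card ≤ 12800000 := by
  set E := Ex G A m with hE
  set A' := A \ Ex G A m with hA'
  have hm0 : 0 < m := by have := h.hm1; linarith
  have h1 : ∑ v ∈ E, ((A'.filter (fun y => G.Adj v y)).card)^2 =
      ∑ x ∈ A', ∑ y ∈ A', (E.filter (fun v => G.Adj v x ∧ G.Adj v y)).card := by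
    simp_rw [card_filter]
    have e1 : ∀ v ∈ E, (∑ y ∈ A', if G.Adj v y then 1 else 0)^2 =
        ∑ x ∈ A', ∑ y ∈ A', if G.Adj v x ∧ G.Adj v y then 1 else 0 := by
      intro v _
      rw [sq, sum_mul_sum]
      apply sum_congr rfl; intro x _
      apply sum_congr rfl; intro y _
      by_cases h4 : G.Adj v x <;> by_cases h5 : G.Adj v y <;> simp [h4, h5]
    rw [sum_congr rfl e1, sum_comm]
    apply sum_congr rfl; intro x _
    rw [sum_comm]
  have h2 : ∀ x ∈ A', ∑ y ∈ A', (E.filter (fun v => G.Adj v x ∧ G.Adj v y)).card ≤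
      E.card + A'.card * 10 := by
    intro x hx
    rw [← add_sum_erase _ _ hx]
    apply add_le_add (card_filter_le _ _)
    calc ∑ y ∈ A'.erase x, (E.filter (fun v => G.Adj v x ∧ G.Adj v y)).card
        ≤ ∑ y ∈ A'.erase x, 10 :=
          sum_le_sum (fun y hy => h.claim3 hx (mem_of_mem_erase hy) (ne_of_mem_erase hy).symm)
      _ = (A'.erase x).card * 10 := by rw [sum_const, smul_eq_mul]
      _ ≤ A'.card * 10 := Nat.mul_le_mul_right _ (card_le_card (erase_subset _ _))
  have h3 : ∑ v ∈ E, ((A'.filter (fun y => G.Adj v y)).card)^2 ≤ A'.card * (E.card + A'.card * 10) := by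
    rw [h1]
    calc _ ≤ ∑ x ∈ A', (E.card + A'.card * 10) := sum_le_sum h2
      _ = _ := by rw [sum_const, smul_eq_mul]
  have h4 : (E.card : ℝ) * (m/800)^2 ≤ A'.card * (E.card + A'.card * 10) := by
    calc (E.card : ℝ) * (m/800)^2 = ∑ v ∈ E, (m/800)^2 := by rw [sum_const, nsmul_eq_mul]
      _ ≤ ∑ v ∈ E, (((A'.filter (fun y => G.Adj v y)).card : ℝ))^2 :=
        sum_le_sum (fun v hv => pow_le_pow_left₀ (by positivity) (h.Xcard hv) 2)
      _ ≤ _ := by exact_mod_cast h3
  have h5 : (A'.card : ℝ) ≤ m := by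
    rw [← h.hm]; exact_mod_cast card_le_univ _
  have h6 : (A'.card : ℝ) * (E.card + A'.card * 10) ≤ m * (E.card + m * 10) := by gcongr
  have h7 : m * ((E.card : ℝ) * (m/640000)) ≤ m * (E.card + m * 10) := by
    calc m * ((E.card : ℝ) * (m/640000)) = (E.card : ℝ) * (m/800)^2 := by ring
      _ ≤ _ := h4.trans h6
  have h8 := le_of_mul_le_mul_left h7 hm0
  have h9 : (E.card : ℝ) ≤ E.card * (m/1280000) := by
    have : 1 ≤ m/1280000 := by rw [le_div_iff₀ (by norm_num)]; linarith [h.hm1]
    nlinarith [Nat.cast_nonneg (α := ℝ) E.card]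
  have h10 : m * (E.card : ℝ) ≤ m * 12800000 := by
    have : (E.card : ℝ) * (m/640000) = E.card * (m/1280000) + E.card * (m/1280000) := by ring
    nlinarith
  have h11 := le_of_mul_le_mul_left h10 hm0
  exact_mod_cast h11

theorem SideHyp.side (h : SideHyp G A B m) {x₀ : ℕ}
    (hsup : ∀ x, x₀ ≤ x → 1600 * 12800001 * x ≤ ex2 x) (hx₀ : (800 * x₀ : ℝ) ≤ m) :
    ee G A A ≤ ex2 A.card := by
  set E := Ex G A m with hE
  set A' := A \ Ex G A m with hA'
  have hEA : E ⊆ A := filter_subset _ _
  rcases E.eq_empty_or_nonempty with h0 | ⟨v, hv⟩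
  · have h1 : A' = A := by
      rw [hA', ← hE, h0, sdiff_empty]
    have h2 := h.claim1
    rw [← hA', h1] at h2
    exact le_ex2 G A h2
  · set X := A'.filter (fun y => G.Adj v y) with hX
    have hX1 : m/800 ≤ X.card := h.Xcard hv
    have hmc : A.card ≤ Fintype.card V := card_le_univ _
    have hmE : Fintype.card V ≤ 800 * X.card := by
      have : (Fintype.card V : ℝ) ≤ 800 * X.card := by rw [h.hm]; linarith
      exact_mod_cast this
    have hXx : x₀ ≤ X.card := by
      have : (x₀ : ℝ) ≤ X.card := by linarith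
      exact_mod_cast this
    have h1 := hsup X.card hXx
    have hAE : A = E ∪ A' := by rw [hA', ← hE, union_sdiff_of_subset hEA]
    have hd1 : Disjoint E A' := disjoint_sdiff
    have h2 : ee G A A ≤ ee G A' A' + 2 * (E.card * A.card) := by
      have e1 : ee G A A = ee G E A + ee G A' A := by
        rw [← ee_union_left G A hd1, ← hAE]
      have e2 : ee G A' A = ee G A' E + ee G A' A' := by
        rw [← ee_union_right G A' hd1, ← hAE]
      have e3 : ee G E A ≤ E.card * A.card := ee_le_mul G E A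
      have e4 : ee G A' E ≤ E.card * A.card := by
        rw [ee_comm]
        exact (ee_mono G (Subset.refl _) sdiff_subset).trans e3
      omega
    set Z := A' \ X with hZ
    have hXA : X ⊆ A' := filter_subset _ _
    have hAX : A' = X ∪ Z := by rw [hZ, union_sdiff_of_subset hXA]
    have hd2 : Disjoint X Z := disjoint_sdiff
    have h3 : ee G A' A' ≤ 2 * A.card + ex2 Z.card := by
      have e1 : ee G A' A' = ee G A' X + ee G A' Z := by
        rw [← ee_union_right G A' hd2, ← hAX]
      have e2 : ee G A' Z = ee G X Z + ee G Z Z := by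
        rw [← ee_union_left G Z hd2, ← hAX]
      have e3 : ee G A' X ≤ A'.card * 1 := ee_le_of G A' X (fun x hx => h.claim2 hv hx)
      have e4 : ee G X Z ≤ ee G A' X := by
        rw [ee_comm]
        exact ee_mono G sdiff_subset (Subset.refl _)
      have e5 : A'.card ≤ A.card := card_le_card sdiff_subset
      have e6 : ee G Z Z ≤ ex2 Z.card := le_ex2 G Z (h.claim1.mono sdiff_subset)
      omega
    have h4 : X.card + Z.card ≤ A.card := by
      rw [← card_union_of_disjoint hd2, ← hAX]
      exact card_le_card sdiff_subset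
    have h5 := ex2_add X.card Z.card
    have h6 := ex2_mono h4
    have h7 : E.card ≤ 12800000 := h.claim4
    have h8 : E.card * A.card ≤ 12800000 * (800 * X.card) :=
      Nat.mul_le_mul h7 (hmc.trans hmE)
    have h9 : A.card ≤ 800 * X.card := hmc.trans hmE
    omega

end side

end Pool.Agent.H.MP_9ec287_co.NearBip
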