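import Mathlib
import Pool.Agent.H.MP_9ec287_co.NearBip.Basic

/-! Few triangles and at least `n^2/4` edges give a good cut. -/

set_option linter.unusedSectionVars false

namespace Pool.Agent.H.MP_9ec287_co.NearBip

open Finset Classical

variable {V : Type*} [Fintype V] [DecidableEq V]

/-- the neighbourhood -/
noncomputable def Nb (G : SimpleGraph V) (v : V) : Finset V := univ.filter (fun y => G.Adj v y)

/-- number of ordered triangles -/
noncomputable def t3 (G : SimpleGraph V) : ℕ := ∑ v, ee G (Nb G v) (Nb G v)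

lemma dd_univ (G : SimpleGraph V) (v : V) : dd G v univ = (Nb G v).card := rfl

lemma sum_Nb (G : SimpleGraph V) (f : V → ℕ) :
    ∑ v, ∑ u ∈ Nb G v, f u = ∑ u, f u * dd G u univ := by
  simp_rw [Nb, sum_filter]
  rw [sum_comm]
  apply sum_congr rfl
  intro u _
  rw [dd_eq_sum, mul_sum]
  apply sum_congr rfl
  intro v _
  rw [G.adj_comm u v]
  split <;> simp

theorem exists_cut (G : SimpleGraph V) (hn : 0 < Fintype.card V)
    (hD : (Fintype.card V)^2 ≤ 2 * ee G univ univ) :
    ∃ A : Finset V, Fintype.card V * (ee G A A + ee G Aᶜ Aᶜ) ≤ 2 * t3 G := by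
  set n := Fintype.card V with hnV
  set D := ee G univ univ with hDD
  -- identity for each cut
  have h1 : ∀ A : Finset V, ee G Aᶜ Aᶜ + 2 * ∑ u ∈ A, dd G u univ = D + ee G A A := by
    intro A
    have h2 := ee_split G A
    have h3 : ∑ u ∈ A, dd G u univ = ee G A A + ee G A Aᶜ := by
      unfold ee
      rw [← sum_add_distrib]
      exact sum_congr rfl (fun u _ => (dd_compl G u A).symm)
    rw [h3, hDD, h2]
    ring
  have h2 : ∑ v, (ee G (Nb G v) (Nb G v) + ee G (Nb G v)ᶜ (Nb G v)ᶜ) + 2 * ∑ u, dd G u univ * dd G u univ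
      = 2 * t3 G + n * D := by
    rw [← sum_Nb G (fun u => dd G u univ), mul_sum, ← sum_add_distrib]
    have h3 : ∀ v, ee G (Nb G v) (Nb G v) + ee G (Nb G v)ᶜ (Nb G v)ᶜ +
        2 * ∑ u ∈ Nb G v, dd G u univ = 2 * ee G (Nb G v) (Nb G v) + D := by
      intro v
      have := h1 (Nb G v)
      omega
    rw [sum_congr rfl (fun v _ => h3 v), sum_add_distrib, ← mul_sum, sum_const, smul_eq_mul, card_univ]
    rfl
  have h4 : D * D ≤ n * ∑ u, dd G u univ * dd G u univ := by
    have h5 := @sq_sum_le_card_mul_sum_sq V ℕ _ _ _ _ univ (fun u => dd G u univ)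
    have h6 : ∑ u, dd G u univ = D := rfl
    rw [h6, card_univ] at h5
    calc D * D = D^2 := by ring
      _ ≤ _ := h5
      _ = n * ∑ u, dd G u univ * dd G u univ := by
        congr 1
        exact sum_congr rfl (fun u _ => by ring)
  have h5 : n * D ≤ 2 * ∑ u, dd G u univ * dd G u univ := by
    have h6 : n * (n * D) ≤ n * (2 * ∑ u, dd G u univ * dd G u univ) := by
      calc n * (n * D) = n^2 * D := by ring
        _ ≤ (2 * D) * D := Nat.mul_le_mul_right _ hD
        _ = 2 * (D * D) := by ring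
        _ ≤ 2 * (n * ∑ u, dd G u univ * dd G u univ) := Nat.mul_le_mul_left _ h4
        _ = n * (2 * ∑ u, dd G u univ * dd G u univ) := by ring
    exact Nat.le_of_mul_le_mul_left h6 hn
  have h6 : ∑ v, (ee G (Nb G v) (Nb G v) + ee G (Nb G v)ᶜ (Nb G v)ᶜ) ≤ 2 * t3 G := by omega
  have hne : (univ : Finset V).Nonempty := by
    rw [← card_pos, card_univ]; exact hn
  obtain ⟨v, _, hv⟩ := exists_min_image univ
    (fun v => ee G (Nb G v) (Nb G v) + ee G (Nb G v)ᶜ (Nb G v)ᶜ) hne
  refine ⟨Nb G v, ?_⟩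
  calc n * (ee G (Nb G v) (Nb G v) + ee G (Nb G v)ᶜ (Nb G v)ᶜ)
      = ∑ w : V, (ee G (Nb G v) (Nb G v) + ee G (Nb G v)ᶜ (Nb G v)ᶜ) := by
        rw [sum_const, smul_eq_mul, card_univ]
    _ ≤ ∑ w, (ee G (Nb G w) (Nb G w) + ee G (Nb G w)ᶜ (Nb G w)ᶜ) :=
        sum_le_sum (fun w _ => hv w (mem_univ _))
    _ ≤ 2 * t3 G := h6

end Pool.Agent.H.MP_9ec287_co.NearBip
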