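import Mathlib
import Pool.Agent.H.MP_9ec287_co.NearBip.Cut
import Pool.Agent.H.MP_9ec287_co.NearBip.Core

/-! More than `Qb n` ordered adjacent pairs and few triangles force a 4-cycle with many common neighbours. -/

set_option linter.unusedSectionVars false

namespace Pool.Agent.H.MP_9ec287_co.NearBip

open Finset Classical

variable {V : Type*} [Fintype V] [DecidableEq V]

lemma min_cut {G : SimpleGraph V} {A : Finset V}
    (hA : ∀ C : Finset V, ee G A A + ee G Aᶜ Aᶜ ≤ ee G C C + ee G Cᶜ Cᶜ) {v : V} (hv : v ∈ A) :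
    dd G v A ≤ dd G v Aᶜ := by
  have h1 := hA (A.erase v)
  have h2 : (A.erase v)ᶜ = insert v Aᶜ := by
    ext y; simp only [mem_compl, mem_erase, mem_insert]; tauto
  rw [h2] at h1
  have h3 := ee_erase G hv
  have h4 : v ∉ Aᶜ := by simpa using hv
  have h5 := ee_insert G h4
  omega

theorem core (G : SimpleGraph V) {m : ℝ} (hm : (Fintype.card V : ℝ) = m) (hm1 : 1280000 ≤ m)
    (hdeg : ∀ v, (1/2 - 1/400) * m ≤ dd G v univ)
    (hcut : ∃ A : Finset V, ((ee G A A + ee G Aᶜ Aᶜ : ℕ) : ℝ) ≤ m^2/10^7) (hNB : NB G (m/15))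
    {x₀ : ℕ} (hsup : ∀ x, x₀ ≤ x → 1600 * 12800001 * x ≤ ex2 x) (hx₀ : (800 * x₀ : ℝ) ≤ m) :
    ee G univ univ ≤ Qb (Fintype.card V) := by
  by_contra hD
  push Not at hD
  obtain ⟨A0, hA0⟩ := hcut
  obtain ⟨A, _, hA⟩ := exists_min_image (univ : Finset (Finset V))
    (fun C => ee G C C + ee G Cᶜ Cᶜ) ⟨∅, mem_univ _⟩
  have hA' : ∀ C : Finset V, ee G A A + ee G Aᶜ Aᶜ ≤ ee G C C + ee G Cᶜ Cᶜ := fun C => hA C (mem_univ _)
  have hB' : ∀ C : Finset V, ee G Aᶜ Aᶜ + ee G Aᶜᶜ Aᶜᶜ ≤ ee G C C + ee G Cᶜ Cᶜ := by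
    intro C
    rw [compl_compl]
    have := hA' C
    omega
  have hinn : ((ee G A A + ee G Aᶜ Aᶜ : ℕ) : ℝ) ≤ m^2/10^7 :=
    le_trans (by exact_mod_cast hA' A0) hA0
  push_cast at hinn
  have hcardn : A.card + Aᶜ.card = Fintype.card V := card_add_card_compl A
  have hcard : (A.card : ℝ) + Aᶜ.card = m := by rw [← hm]; exact_mod_cast hcardn
  have hsplit := ee_split G A
  have hAB := ee_le_mul G A Aᶜ
  set a : ℝ := (A.card : ℝ) with ha
  set b : ℝ := (Aᶜ.card : ℝ) with hb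
  have hDr : m^2 ≤ 2 * (ee G univ univ : ℝ) := by
    have h1 := half_le_Qb (Fintype.card V)
    have h2 : (Fintype.card V)^2 ≤ 2 * ee G univ univ := by omega
    rw [← hm]
    exact_mod_cast h2
  have hDr2 : (ee G univ univ : ℝ) ≤ 2 * (a * b) + m^2/10^7 := by
    have h1 : (ee G univ univ : ℝ) = ee G A A + 2 * ee G A Aᶜ + ee G Aᶜ Aᶜ := by exact_mod_cast hsplit
    have h2 : (ee G A Aᶜ : ℝ) ≤ a * b := by
      rw [ha, hb]; exact_mod_cast hAB
    linarith
  have hm0 : 0 < m := by linarith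
  have h3 : (a - m/2)^2 ≤ (m/2000)^2 := by
    have : b = m - a := by linarith
    rw [this] at hDr2
    nlinarith [sq_nonneg m]
  have h4 := abs_le_of_sq_le_sq' h3 (by positivity)
  have hin1 : (ee G A A : ℝ) ≤ m^2/10^7 := by
    have : (0:ℝ) ≤ ee G Aᶜ Aᶜ := Nat.cast_nonneg _
    linarith
  have hin2 : (ee G Aᶜ Aᶜ : ℝ) ≤ m^2/10^7 := by
    have : (0:ℝ) ≤ ee G A A := Nat.cast_nonneg _
    linarith
  have s1 : SideHyp G A Aᶜ m := ⟨hm, rfl, hm1, hdeg, fun v hv => min_cut hA' hv, by linarith [h4.2],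
    by linarith [h4.1], hin1, hNB⟩
  have s2 : SideHyp G Aᶜ A m := ⟨hm, (compl_compl A).symm, hm1, hdeg, fun v hv => by
      have := min_cut hB' hv
      rwa [compl_compl] at this, by linarith [h4.1],
    by linarith [h4.2], hin2, hNB⟩
  have r1 := s1.side hsup hx₀
  have r2 := s2.side hsup hx₀
  have r3 := le_Qb A.card Aᶜ.card
  rw [hcardn] at r3
  have r4 : 2 * A.card * Aᶜ.card = 2 * (A.card * Aᶜ.card) := by ring
  omega

section induced

variable (G : SimpleGraph V) (S : Finset V)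

/-- the induced graph on `S` -/
def ind : SimpleGraph {x // x ∈ S} := G.comap (fun x => (x : V))

lemma dd_ind (x : {x // x ∈ S}) (U : Finset {x // x ∈ S}) :
    dd (ind G S) x U = dd G x (U.map (Function.Embedding.subtype _)) := by
  rw [dd_eq_sum, dd_eq_sum, sum_map]
  rfl

lemma ee_ind (T U : Finset {x // x ∈ S}) :
    ee (ind G S) T U = ee G (T.map (Function.Embedding.subtype _)) (U.map (Function.Embedding.subtype _)) := by
  unfold ee
  rw [sum_map]
  exact sum_congr rfl (fun x _ => dd_ind G S x U)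

lemma map_univ_sub : (univ : Finset {x // x ∈ S}).map (Function.Embedding.subtype _) = S := by
  ext x; simp

lemma cn_ind_le (a b c d : {x // x ∈ S}) : (cn (ind G S) a b c d).card ≤ (cn G a b c d).card := by
  rw [← card_map (Function.Embedding.subtype _)]
  apply card_le_card
  intro y hy
  rw [mem_map] at hy
  obtain ⟨z, hz, rfl⟩ := hy
  simp only [cn, mem_filter, mem_univ, true_and, ind, SimpleGraph.comap_adj] at hz ⊢
  exact hz

end induced

theorem partB_aux (G : SimpleGraph V) {x₀ n₀ : ℕ}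
    (hsup : ∀ x, x₀ ≤ x → 1600 * 12800001 * x ≤ ex2 x)
    (hn₀ : 2000000 ≤ n₀) (hn₀' : 1600 * x₀ ≤ n₀) (hn : n₀ ≤ Fintype.card V)
    (hD : Qb (Fintype.card V) < ee G univ univ)
    (ht : (t3 G : ℝ) ≤ (Fintype.card V : ℝ)^3 / 10^9) :
    ∃ a b c d, a ≠ c ∧ b ≠ d ∧ G.Adj a b ∧ G.Adj b c ∧ G.Adj c d ∧ G.Adj d a ∧
      (Fintype.card V : ℝ) / 16 ≤ (cn G a b c d).card := by
  by_contra hcon
  push Not at hcon
  set n : ℝ := (Fintype.card V : ℝ) with hnr
  have hn1 : (2000000 : ℝ) ≤ n := by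
    rw [hnr]; exact_mod_cast hn₀.trans hn
  have hn2 : (1600 * x₀ : ℝ) ≤ n := by
    rw [hnr]; exact_mod_cast hn₀'.trans hn
  have hn0 : 0 < n := by linarith
  have hcard0 : 0 < Fintype.card V := by omega
  have hD2 : (Fintype.card V)^2 ≤ 2 * ee G univ univ := by
    have := half_le_Qb (Fintype.card V)
    omega
  obtain ⟨A0, hA0⟩ := exists_cut G hcard0 hD2
  have hA0r : ((ee G A0 A0 : ℝ) + ee G A0ᶜ A0ᶜ) ≤ 2 * n^2/10^9 := by
    have h1 : n * ((ee G A0 A0 : ℝ) + ee G A0ᶜ A0ᶜ) ≤ 2 * t3 G := by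
      rw [hnr]; exact_mod_cast hA0
    have h2 : n * ((ee G A0 A0 : ℝ) + ee G A0ᶜ A0ᶜ) ≤ n * (2 * n^2/10^9) := by
      calc n * ((ee G A0 A0 : ℝ) + ee G A0ᶜ A0ᶜ) ≤ 2 * t3 G := h1
        _ ≤ 2 * (n^3/10^9) := by linarith
        _ = n * (2 * n^2/10^9) := by ring
    exact le_of_mul_le_mul_left h2 hn0
  -- the minimal set
  set P : Finset V → Prop := fun S => (Qb S.card : ℝ) + 1 + (n/1000) * (n - S.card) ≤ ee G S S with hP
  have hPu : P univ := by
    simp only [hP, card_univ]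
    rw [← hnr, sub_self, mul_zero, add_zero]
    exact_mod_cast hD
  obtain ⟨S, hS, hmin⟩ := exists_min_image (univ.filter P) (fun S => S.card)
    ⟨univ, mem_filter.mpr ⟨mem_univ _, hPu⟩⟩
  rw [mem_filter] at hS
  have hPS := hS.2
  simp only [hP] at hPS
  set m : ℝ := (S.card : ℝ) with hmr
  have hmn : m ≤ n := by rw [hmr, hnr]; exact_mod_cast card_le_univ S
  have hQ : m^2 ≤ 2 * (Qb S.card : ℝ) + 1 := by rw [hmr]; exact_mod_cast half_le_Qb S.card
  have hSS : (ee G S S : ℝ) ≤ m^2/2 + 2 * n^2/10^9 := by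
    have e0 : S = (S ∩ A0) ∪ (S ∩ A0ᶜ) := by rw [← inter_union_distrib_left, union_compl, inter_univ]
    have hd : Disjoint (S ∩ A0) (S ∩ A0ᶜ) :=
      disjoint_of_subset_left inter_subset_right
        (disjoint_of_subset_right inter_subset_right disjoint_compl_right)
    have e1 : ee G S S = ee G (S ∩ A0) (S ∩ A0) + 2 * ee G (S ∩ A0) (S ∩ A0ᶜ) +
        ee G (S ∩ A0ᶜ) (S ∩ A0ᶜ) := by
      conv_lhs => rw [e0]
      rw [ee_union_left G _ hd, ee_union_right G _ hd, ee_union_right G _ hd,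
        ee_comm G (S ∩ A0ᶜ) (S ∩ A0)]
      ring
    have e2 : ee G (S ∩ A0) (S ∩ A0) ≤ ee G A0 A0 := ee_mono G inter_subset_right inter_subset_right
    have e3 : ee G (S ∩ A0ᶜ) (S ∩ A0ᶜ) ≤ ee G A0ᶜ A0ᶜ := ee_mono G inter_subset_right inter_subset_right
    have e4 := ee_le_mul G (S ∩ A0) (S ∩ A0ᶜ)
    have e5 : (S ∩ A0).card + (S ∩ A0ᶜ).card = S.card := by
      rw [← card_union_of_disjoint hd, ← e0]
    have e6 : ((S ∩ A0).card : ℝ) + (S ∩ A0ᶜ).card = m := by rw [hmr]; exact_mod_cast e5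
    have e7 : (ee G S S : ℝ) = ee G (S ∩ A0) (S ∩ A0) + 2 * ee G (S ∩ A0) (S ∩ A0ᶜ) +
        ee G (S ∩ A0ᶜ) (S ∩ A0ᶜ) := by exact_mod_cast e1
    have e8 : (ee G (S ∩ A0) (S ∩ A0) : ℝ) ≤ ee G A0 A0 := by exact_mod_cast e2
    have e9 : (ee G (S ∩ A0ᶜ) (S ∩ A0ᶜ) : ℝ) ≤ ee G A0ᶜ A0ᶜ := by exact_mod_cast e3
    have e10 : (ee G (S ∩ A0) (S ∩ A0ᶜ) : ℝ) ≤ ((S ∩ A0).card : ℝ) * (S ∩ A0ᶜ).card := by
      exact_mod_cast e4
    have e11 : 4 * (((S ∩ A0).card : ℝ) * (S ∩ A0ᶜ).card) ≤ m^2 := by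
      rw [← e6]
      nlinarith [sq_nonneg (((S ∩ A0).card : ℝ) - (S ∩ A0ᶜ).card)]
    linarith
  have hnm : n - m ≤ n * (3/10^6) := by
    have h1 : (n/1000) * (n - m) ≤ (n/1000) * (n * (3/10^6)) := by
      nlinarith
    exact le_of_mul_le_mul_left h1 (by positivity)
  have hm9 : (999/1000) * n ≤ m := by linarith
  -- minimum degree
  have hdeg : ∀ v ∈ S, (1/2 - 1/400) * m ≤ dd G v S := by
    intro v hv
    by_contra hlt
    push Not at hlt
    have h1 := ee_erase G hv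
    have h1r : (ee G (S.erase v) (S.erase v) : ℝ) + 2 * dd G v S = ee G S S := by exact_mod_cast h1
    have hpos : 0 < S.card := card_pos.mpr ⟨v, hv⟩
    have hce : (S.erase v).card + 1 = S.card := card_erase_add_one hv
    have hcer : ((S.erase v).card : ℝ) + 1 = m := by rw [hmr]; exact_mod_cast hce
    have hQs := Qb_succ (S.erase v).card
    rw [hce] at hQs
    have hQsr : (Qb (S.erase v).card : ℝ) + (S.erase v).card ≤ Qb S.card := by exact_mod_cast hQs
    have hPe : P (S.erase v) := by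
      simp only [hP]
      have : ((S.erase v).card : ℝ) = m - 1 := by linarith
      rw [this]
      rw [this] at hQsr
      nlinarith
    have := hmin (S.erase v) (mem_filter.mpr ⟨mem_univ _, hPe⟩)
    omega
  -- the induced graph
  have hcardS : (Fintype.card {x // x ∈ S} : ℝ) = m := by rw [Fintype.card_coe]
  have hres := core (ind G S) hcardS (by linarith) (fun v => by
      rw [dd_ind, map_univ_sub]; exact hdeg v v.2)
    ⟨univ.filter (fun x => (x : V) ∈ A0), by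
      have e1 : ee (ind G S) (univ.filter (fun x : {x // x ∈ S} => (x : V) ∈ A0))
          (univ.filter (fun x : {x // x ∈ S} => (x : V) ∈ A0)) ≤ ee G A0 A0 := by
        rw [ee_ind]
        apply ee_mono <;>
        · intro y hy
          simp only [mem_map, mem_filter, mem_univ, true_and] at hy
          obtain ⟨z, hz, rfl⟩ := hy
          exact hz
      have e2 : ee (ind G S) (univ.filter (fun x : {x // x ∈ S} => (x : V) ∈ A0))ᶜ
          (univ.filter (fun x : {x // x ∈ S} => (x : V) ∈ A0))ᶜ ≤ ee G A0ᶜ A0ᶜ := by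
        rw [ee_ind]
        apply ee_mono <;>
        · intro y hy
          simp only [mem_map, mem_filter, mem_univ, true_and, mem_compl] at hy
          obtain ⟨z, hz, rfl⟩ := hy
          exact mem_compl.mpr hz
      have e3 : (ee (ind G S) (univ.filter (fun x : {x // x ∈ S} => (x : V) ∈ A0))
          (univ.filter (fun x : {x // x ∈ S} => (x : V) ∈ A0)) : ℝ) ≤ ee G A0 A0 := by exact_mod_cast e1
      have e4 : (ee (ind G S) (univ.filter (fun x : {x // x ∈ S} => (x : V) ∈ A0))ᶜ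
          (univ.filter (fun x : {x // x ∈ S} => (x : V) ∈ A0))ᶜ : ℝ) ≤ ee G A0ᶜ A0ᶜ := by exact_mod_cast e2
      push_cast
      have e5 : n^2 * (999/1000)^2 ≤ m^2 := by
        rw [← mul_pow]
        exact pow_le_pow_left₀ (by positivity) (by linarith) 2
      nlinarith⟩
    (by
      intro a b c d hac hbd h1 h2 h3 h4
      have e1 := hcon a b c d (fun h => hac (Subtype.ext h)) (fun h => hbd (Subtype.ext h)) h1 h2 h3 h4
      have e2 : ((cn (ind G S) a b c d).card : ℝ) ≤ (cn G a b c d).card := by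
        exact_mod_cast cn_ind_le G S a b c d
      linarith) hsup (by linarith)
  rw [ee_ind, map_univ_sub, Fintype.card_coe] at hres
  have hresr : (ee G S S : ℝ) ≤ Qb S.card := by exact_mod_cast hres
  have : 0 ≤ (n/1000) * (n - m) := by
    apply mul_nonneg (by positivity)
    linarith
  linarith

/-- Part B -/
theorem partB : ∃ n₀ : ℕ, ∀ (V : Type) [Fintype V] [DecidableEq V] (G : SimpleGraph V),
    n₀ ≤ Fintype.card V → Qb (Fintype.card V) < ee G univ univ →
    (t3 G : ℝ) ≤ (Fintype.card V : ℝ)^3 / 10^9 →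
    ∃ a b c d, a ≠ c ∧ b ≠ d ∧ G.Adj a b ∧ G.Adj b c ∧ G.Adj c d ∧ G.Adj d a ∧
      (Fintype.card V : ℝ) / 16 ≤ (cn G a b c d).card := by
  obtain ⟨x₀, hx₀⟩ := ex2_superlinear (1600 * 12800001)
  refine ⟨max 2000000 (1600 * x₀), fun V _ _ G hn hD ht => ?_⟩
  exact partB_aux G hx₀ (le_max_left _ _) (le_max_right _ _) hn hD ht

end Pool.Agent.H.MP_9ec287_co.NearBip
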