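import Mathlib
import Pool.Agent.H.MP_9ec287_co.NearBip.Main
import Pool.Agent.H.MP_9ec287_co.NearBip.Defs

/-! From the working definitions to the literal ones. -/

set_option linter.unusedSectionVars false

namespace Pool.Agent.H.MP_9ec287_co.NearBip

open Finset Classical

variable {V : Type*} [Fintype V] [DecidableEq V]

lemma dd_degree (G : SimpleGraph V) (v : V) : dd G v univ = G.degree v := by
  unfold dd
  rw [← SimpleGraph.card_neighborFinset_eq_degree, SimpleGraph.neighborFinset_eq_filter]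

lemma ee_edges (G : SimpleGraph V) : ee G univ univ = 2 * G.edgeSet.ncard := by
  have h := G.sum_degrees_eq_twice_card_edges
  have h2 : G.edgeFinset.card = G.edgeSet.ncard := by
    rw [← Set.ncard_coe_finset, SimpleGraph.coe_edgeFinset]
  rw [← h2, ← h]
  unfold ee
  exact sum_congr rfl (fun v _ => dd_degree G v)

/-- a 4-cycle with `t` common neighbours gives `K(2,2,t)` -/
lemma contains_K22 (G : SimpleGraph V) {a b c d : V} (hac : a ≠ c) (hbd : b ≠ d) (h1 : G.Adj a b)
    (h2 : G.Adj b c) (h3 : G.Adj c d) (h4 : G.Adj d a) {t : ℕ} (ht : t ≤ (cn G a b c d).card) :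
    (K22 t).IsContained G := by
  obtain ⟨T, hT, hTc⟩ := exists_subset_card_eq ht
  let e : Fin t ≃ T := (Fin.castOrderIso hTc.symm).toEquiv.trans T.equivFin.symm
  have hTadj : ∀ i : Fin t, G.Adj (e i : V) a ∧ G.Adj (e i : V) b ∧ G.Adj (e i : V) c ∧
      G.Adj (e i : V) d := by
    intro i
    have := hT (e i).2
    simpa [cn] using this
  let f : (Σ i : Fin 3, Fin (![2, 2, t] i)) → V := fun x =>
    match x with
    | ⟨0, i⟩ => if (i : ℕ) = 0 then a else c
    | ⟨1, i⟩ => if (i : ℕ) = 0 then b else d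
    | ⟨2, i⟩ => (e i : V)
  have hA : ∀ i : Fin 2, f ⟨0, i⟩ = a ∨ f ⟨0, i⟩ = c := by
    intro i; fin_cases i <;> simp [f]
  have hB : ∀ i : Fin 2, f ⟨1, i⟩ = b ∨ f ⟨1, i⟩ = d := by
    intro i; fin_cases i <;> simp [f]
  have h01 : ∀ i j : Fin 2, G.Adj (f ⟨0, i⟩) (f ⟨1, j⟩) := by
    intro i j
    rcases hA i with h | h <;> rcases hB j with h' | h' <;> rw [h, h']
    · exact h1
    · exact h4.symm
    · exact h2.symm
    · exact h3
  have h02 : ∀ (i : Fin 2) (j : Fin t), G.Adj (f ⟨0, i⟩) (f ⟨2, j⟩) := by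
    intro i j
    rcases hA i with h | h <;> rw [h]
    · exact (hTadj j).1.symm
    · exact (hTadj j).2.2.1.symm
  have h12 : ∀ (i : Fin 2) (j : Fin t), G.Adj (f ⟨1, i⟩) (f ⟨2, j⟩) := by
    intro i j
    rcases hB i with h | h <;> rw [h]
    · exact (hTadj j).2.1.symm
    · exact (hTadj j).2.2.2.symm
  have hhom : ∀ x y, (K22 t).Adj x y → G.Adj (f x) (f y) := by
    rintro ⟨i, x⟩ ⟨j, y⟩ h
    have hij : i ≠ j := by simpa [K22] using h
    fin_cases i <;> fin_cases j
    · exact absurd rfl hij
    · exact h01 x y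
    · exact h02 x y
    · exact (h01 y x).symm
    · exact absurd rfl hij
    · exact h12 x y
    · exact (h02 y x).symm
    · exact (h12 y x).symm
    · exact absurd rfl hij
  have hinj : Function.Injective f := by
    rintro ⟨i, x⟩ ⟨j, y⟩ h
    by_cases hij : i = j
    · subst hij
      fin_cases i
      · have : ∀ x y : Fin 2, f ⟨0, x⟩ = f ⟨0, y⟩ → x = y := by
          intro x y h
          fin_cases x <;> fin_cases y <;> simp_all [f]
        have h' := this x y h
        subst h'
        rfl
      · have : ∀ x y : Fin 2, f ⟨1, x⟩ = f ⟨1, y⟩ → x = y := by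
          intro x y h
          fin_cases x <;> fin_cases y <;> simp_all [f]
        have h' := this x y h
        subst h'
        rfl
      · have : ∀ x y : Fin t, f ⟨2, x⟩ = f ⟨2, y⟩ → x = y := by
          intro x y h
          exact e.injective (Subtype.ext h)
        have h' := this x y h
        subst h'
        rfl
    · exfalso
      have := hhom ⟨i, x⟩ ⟨j, y⟩ (by simpa [K22] using hij)
      rw [h] at this
      exact G.loopless.irrefl _ this
  exact ⟨⟨⟨f, fun {x y} h => hhom x y h⟩, hinj⟩⟩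

/-- two graphs joined completely -/
def joinG {a b : ℕ} (G : SimpleGraph (Fin a)) (H : SimpleGraph (Fin b)) :
    SimpleGraph (Fin a ⊕ Fin b) where
  Adj := fun u v => match u, v with
    | Sum.inl x, Sum.inl y => G.Adj x y
    | Sum.inr x, Sum.inr y => H.Adj x y
    | _, _ => True
  symm := ⟨by
    rintro (u|u) (v|v) h
    · exact G.adj_symm h
    · trivial
    · trivial
    · exact H.adj_symm h⟩
  loopless := ⟨by
    rintro (u|u) h
    · exact G.loopless.irrefl _ h
    · exact H.loopless.irrefl _ h⟩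

lemma ee_joinG {a b : ℕ} (G : SimpleGraph (Fin a)) (H : SimpleGraph (Fin b)) :
    ee (joinG G H) univ univ = 2 * a * b + ee G univ univ + ee H univ univ := by
  unfold ee
  simp_rw [dd_eq_sum]
  rw [Fintype.sum_sum_type]
  simp only [Fintype.sum_sum_type]
  simp only [joinG]
  simp only [if_true, sum_const, card_univ, Fintype.card_fin, smul_eq_mul, mul_one, sum_add_distrib]
  ring_nf

lemma free_of_C4on {α β : Type*} (G : SimpleGraph α) (H : SimpleGraph β) [Fintype β]
    (hH : C4on H univ) (φ : α → β) (hφ : Function.Injective φ)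
    (hadj : ∀ x y, G.Adj x y → H.Adj (φ x) (φ y)) : (SimpleGraph.cycleGraph 4).Free G := by
  rintro ⟨f⟩
  have hf := f.injective'
  have h : ∀ i j : Fin 4, (SimpleGraph.cycleGraph 4).Adj i j → H.Adj (φ (f.toHom i)) (φ (f.toHom j)) :=
    fun i j hij => hadj _ _ (f.toHom.map_rel hij)
  refine hH (φ (f.toHom 0)) (mem_univ _) (φ (f.toHom 1)) (mem_univ _) (φ (f.toHom 2)) (mem_univ _)
    (φ (f.toHom 3)) (mem_univ _) ?_ ?_ (h 0 1 (by decide)) (h 1 2 (by decide)) (h 2 3 (by decide))
    (h 3 0 (by decide))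
  · intro h5
    have := hf (hφ h5)
    exact absurd this (by decide)
  · intro h5
    have := hf (hφ h5)
    exact absurd this (by decide)

theorem Qb_le_qbar (n : ℕ) : Qb n ≤ 2 * qbar n := by
  obtain ⟨a, b, hab, hQ⟩ := exists_Qb n
  obtain ⟨G, hG, hG2⟩ := exists_ex2 a
  obtain ⟨H, hH, hH2⟩ := exists_ex2 b
  let e : Fin n ≃ Fin a ⊕ Fin b := (finCongr hab.symm).trans finSumFinEquiv.symm
  let J : SimpleGraph (Fin n) := (joinG G H).comap e
  have hJ : J ∈ Q n := by
    refine ⟨{x | (e x).isLeft = true}, ?_, ?_, ?_⟩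
    · intro x hx y hy
      simp only [Set.mem_ofPred_eq] at hx hy
      change (joinG G H).Adj (e x) (e y)
      rcases hex : e x with u | u <;> rcases hey : e y with v | v <;> simp_all [joinG]
    · refine free_of_C4on _ G hG (fun x => (e x.1).getLeft x.2) ?_ ?_
      · intro x y h
        apply Subtype.ext
        apply e.injective
        have hx := Sum.inl_getLeft (e x.1) x.2
        have hy := Sum.inl_getLeft (e y.1) y.2
        rw [← hx, ← hy]
        exact congrArg Sum.inl h
      · intro x y h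
        have h' : (joinG G H).Adj (e x.1) (e y.1) := h
        rw [← Sum.inl_getLeft (e x.1) x.2, ← Sum.inl_getLeft (e y.1) y.2] at h'
        exact h'
    · have hr : ∀ x : ({x | (e x).isLeft = true}ᶜ : Set (Fin n)), (e x.1).isRight = true := by
        intro x
        have := x.2
        simp only [Set.mem_compl_iff, Set.mem_ofPred_eq] at this
        simpa using this
      refine free_of_C4on _ H hH (fun x => (e x.1).getRight (hr x)) ?_ ?_
      · intro x y h
        apply Subtype.ext
        apply e.injective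
        have hx := Sum.inr_getRight (e x.1) (hr x)
        have hy := Sum.inr_getRight (e y.1) (hr y)
        rw [← hx, ← hy]
        exact congrArg Sum.inr h
      · intro x y h
        have h' : (joinG G H).Adj (e x.1) (e y.1) := h
        rw [← Sum.inr_getRight (e x.1) (hr x), ← Sum.inr_getRight (e y.1) (hr y)] at h'
        exact h'
  have hJe : ee J univ univ = ee (joinG G H) univ univ := by
    unfold ee
    simp_rw [dd_eq_sum]
    rw [← e.sum_comp (fun x => ∑ y, if (joinG G H).Adj x y then 1 else 0)]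
    apply sum_congr rfl
    intro x _
    rw [← e.sum_comp (fun y => if (joinG G H).Adj (e x) y then 1 else 0)]
    rfl
  have h1 : Qb n = 2 * J.edgeSet.ncard := by
    rw [← ee_edges, hJe, ee_joinG, hG2, hH2, hQ]
  have hbdd : BddAbove ((fun G : SimpleGraph (Fin n) => G.edgeSet.ncard) '' Q n) :=
    (Set.toFinite _).bddAbove
  have h2 : J.edgeSet.ncard ≤ qbar n := le_csSup hbdd ⟨J, hJ, rfl⟩
  omega

/-- the whole statement from Part A (few triangles) -/
theorem final_of_partA
    (hA : ∀ c : ℝ, c < 1/16 → ∃ n₀ : ℕ, ∀ (V : Type) [Fintype V] [DecidableEq V] (G : SimpleGraph V),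
      n₀ ≤ Fintype.card V → (Fintype.card V)^2 ≤ 2 * ee G univ univ → NB G (c * Fintype.card V) →
      (t3 G : ℝ) ≤ (Fintype.card V : ℝ)^3 / 10^9) :
    ∀ c : ℝ, c < 1/16 → ∃ N : ℕ, ∀ n : ℕ, N ≤ n → ∀ G : SimpleGraph (Fin n),
      G.edgeSet.ncard = qbar n + 1 → ∃ t : ℕ, c * n ≤ t ∧ (K22 t).IsContained G := by
  intro c hc
  obtain ⟨n₁, h₁⟩ := hA c hc
  obtain ⟨n₂, h₂⟩ := partB
  refine ⟨max n₁ n₂, fun n hn G hG => ?_⟩
  have hcard : Fintype.card (Fin n) = n := Fintype.card_fin n
  have hQ := Qb_le_qbar n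
  have hee := ee_edges G
  rw [hG] at hee
  have hDQ : Qb (Fintype.card (Fin n)) < ee G univ univ := by rw [hcard]; omega
  by_cases hNB : NB G (c * Fintype.card (Fin n))
  · have ht := h₁ (Fin n) G (by rw [hcard]; exact (le_max_left _ _).trans hn) (by
      have := half_le_Qb (Fintype.card (Fin n))
      omega) hNB
    obtain ⟨a, b, d, e, hac, hbd, k1, k2, k3, k4, k5⟩ := h₂ (Fin n) G
      (by rw [hcard]; exact (le_max_right _ _).trans hn) hDQ ht
    refine ⟨(cn G a b d e).card, ?_, contains_K22 G hac hbd k1 k2 k3 k4 le_rfl⟩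
    rw [hcard] at k5
    have : c * n ≤ (1/16) * n := mul_le_mul_of_nonneg_right hc.le (Nat.cast_nonneg _)
    linarith
  · unfold NB at hNB
    push Not at hNB
    obtain ⟨a, b, d, e, hac, hbd, k1, k2, k3, k4, k5⟩ := hNB
    rw [hcard] at k5
    exact ⟨(cn G a b d e).card, k5, contains_K22 G hac hbd k1 k2 k3 k4 le_rfl⟩

end Pool.Agent.H.MP_9ec287_co.NearBip
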